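import Mathlib
import Pool.Agent.V11132.AM

namespace Pool.Agent.Results.MP_567833_co.NotSubadditive

open SimpleGraph Pool.Agent.V11132.AM

/-- labels of the cycle edges and of the pairs of edges of the paths, for each number of paths -/
def table : List (List ℕ × List (ℕ × ℕ)) := [
    ([19, 18, 20, 21], []),
    ([23, 21, 19, 18], [(20, 22)]),
    ([24, 18, 21, 23], [(19, 22), (20, 25)]),
    ([19, 18, 23, 25], [(20, 22), (21, 24), (26, 27)]),
    ([27, 26, 18, 19], [(20, 21), (22, 23), (24, 25), (28, 29)]),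
    ([23, 26, 20, 24], [(18, 19), (21, 22), (25, 27), (28, 29), (30, 31)]),
    ([33, 29, 26, 25], [(18, 19), (20, 21), (22, 23), (24, 28), (27, 30), (31, 32)]),
    ([33, 27, 22, 20], [(18, 19), (21, 23), (24, 26), (25, 29), (28, 30), (31, 32), (34, 35)]),
    ([27, 18, 31, 37], [(19, 20), (21, 22), (23, 24), (25, 26), (28, 29), (30, 32), (33, 34),
    (35, 36)]),
    ([24, 27, 32, 20], [(18, 22), (19, 23), (21, 25), (26, 28), (29, 31), (30, 33), (34, 35),
    (36, 37), (38, 39)]),
    ([30, 33, 39, 41], [(18, 21), (19, 22), (20, 23), (24, 25), (26, 27), (28, 29), (31, 34),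
    (32, 35), (36, 37), (38, 40)]),
    ([36, 40, 38, 33], [(18, 20), (19, 21), (22, 23), (24, 25), (26, 27), (28, 29), (30, 31),
    (32, 34), (35, 37), (39, 41), (42, 43)]),
    ([31, 42, 43, 37], [(18, 19), (20, 22), (21, 25), (23, 24), (26, 27), (28, 29), (30, 32),
    (33, 34), (35, 36), (38, 39), (40, 41), (44, 45)]),
    ([32, 39, 47, 21], [(18, 29), (19, 20), (22, 26), (23, 27), (24, 25), (28, 30), (31, 33),
    (34, 35), (36, 37), (38, 40), (41, 42), (43, 44), (45, 46)]),
    ([47, 40, 41, 26], [(18, 22), (19, 28), (20, 21), (23, 27), (24, 29), (25, 30), (31, 32),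
    (33, 35), (34, 36), (37, 38), (39, 43), (42, 44), (45, 46), (48, 49)]),
    ([39, 36, 51, 19], [(18, 21), (20, 31), (22, 30), (23, 32), (24, 29), (25, 34), (26, 28),
    (27, 33), (35, 37), (38, 40), (41, 42), (43, 45), (44, 46), (47, 48), (49, 50)]),
    ([26, 37, 36, 52], [(18, 19), (20, 32), (21, 33), (22, 34), (23, 35), (24, 31), (25, 39),
    (27, 30), (28, 38), (29, 40), (41, 42), (43, 44), (45, 46), (47, 48), (49, 50), (51, 53)]),
    ([35, 27, 36, 49], [(18, 31), (19, 37), (20, 38), (21, 39), (22, 42), (23, 34), (24, 41),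
    (25, 43), (26, 33), (28, 44), (29, 32), (30, 40), (45, 46), (47, 48), (50, 51), (52, 53),
    (54, 55)]),
    ([52, 53, 35, 33], [(18, 34), (19, 39), (20, 40), (21, 32), (22, 37), (23, 38), (24, 41),
    (25, 42), (26, 36), (27, 43), (28, 44), (29, 45), (30, 46), (31, 47), (48, 49), (50, 51),
    (54, 55), (56, 57)]),
    ([26, 43, 18, 48], [(19, 24), (20, 28), (21, 39), (22, 40), (23, 41), (25, 38), (27, 44),
    (29, 36), (30, 37), (31, 42), (32, 45), (33, 35), (34, 46), (47, 49), (50, 51), (52, 53),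
    (54, 55), (56, 57), (58, 59)]),
    ([37, 49, 36, 27], [(18, 19), (20, 29), (21, 41), (22, 43), (23, 44), (24, 42), (25, 45),
    (26, 46), (28, 40), (30, 39), (31, 47), (32, 48), (33, 38), (34, 50), (35, 52), (51, 53),
    (54, 55), (56, 57), (58, 59), (60, 61)]),
    ([56, 34, 37, 49], [(18, 19), (20, 29), (21, 35), (22, 42), (23, 43), (24, 41), (25, 44),
    (26, 46), (27, 40), (28, 45), (30, 38), (31, 39), (32, 47), (33, 48), (36, 51), (50, 52),
    (53, 54), (55, 57), (58, 59), (60, 61), (62, 63)]),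
    ([48, 63, 42, 28], [(18, 24), (19, 29), (20, 43), (21, 45), (22, 46), (23, 44), (25, 47),
    (26, 49), (27, 50), (30, 39), (31, 40), (32, 41), (33, 51), (34, 52), (35, 53), (36, 38),
    (37, 54), (55, 57), (56, 58), (59, 60), (61, 62), (64, 65)]),
    ([54, 57, 52, 27], [(18, 34), (19, 35), (20, 37), (21, 47), (22, 48), (23, 46), (24, 49),
    (25, 50), (26, 45), (28, 44), (29, 51), (30, 53), (31, 43), (32, 55), (33, 56), (36, 40),
    (38, 39), (41, 58), (42, 59), (60, 61), (62, 63), (64, 65), (66, 67)]),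
    ([59, 52, 41, 47], [(18, 23), (19, 28), (20, 32), (21, 38), (22, 48), (24, 49), (25, 46),
    (26, 50), (27, 45), (29, 51), (30, 44), (31, 53), (33, 42), (34, 43), (35, 54), (36, 55),
    (37, 57), (39, 40), (56, 58), (60, 61), (62, 63), (64, 65), (66, 67), (68, 69)]),
    ([70, 26, 44, 54], [(18, 36), (19, 25), (20, 52), (21, 53), (22, 51), (23, 55), (24, 56),
    (27, 48), (28, 49), (29, 47), (30, 57), (31, 50), (32, 58), (33, 46), (34, 59), (35, 60),
    (37, 45), (38, 61), (39, 62), (40, 43), (41, 63), (42, 64), (65, 66), (67, 68), (69, 71)]),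
    ([39, 55, 36, 40], [(18, 21), (19, 56), (20, 35), (22, 52), (23, 54), (24, 57), (25, 53),
    (26, 58), (27, 59), (28, 60), (29, 51), (30, 62), (31, 64), (32, 50), (33, 63), (34, 49),
    (37, 48), (38, 61), (41, 46), (42, 47), (43, 65), (44, 66), (45, 67), (68, 69), (70, 71),
    (72, 73)]),
    ([62, 71, 53, 41], [(18, 23), (19, 34), (20, 42), (21, 50), (22, 54), (24, 55), (25, 52),
    (26, 56), (27, 51), (28, 57), (29, 58), (30, 59), (31, 49), (32, 60), (33, 48), (35, 61),
    (36, 47), (37, 63), (38, 46), (39, 65), (40, 66), (43, 45), (44, 64), (67, 68), (69, 70),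
    (72, 73), (74, 75)]),
    ([72, 44, 73, 25], [(18, 26), (19, 53), (20, 70), (21, 71), (22, 51), (23, 66), (24, 64),
    (27, 55), (28, 77), (29, 49), (30, 54), (31, 50), (32, 47), (33, 52), (34, 46), (35, 48),
    (36, 67), (37, 56), (38, 57), (39, 60), (40, 61), (41, 45), (42, 68), (43, 63), (58, 62),
    (59, 65), (69, 74), (75, 76)]),
    ([47, 40, 42, 60], [(18, 22), (19, 23), (20, 27), (21, 39), (24, 56), (25, 58), (26, 55),
    (28, 57), (29, 59), (30, 54), (31, 61), (32, 62), (33, 53), (34, 63), (35, 64), (36, 65),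
    (37, 52), (38, 66), (41, 49), (43, 48), (44, 51), (45, 67), (46, 50), (68, 69), (70, 71),
    (72, 73), (74, 75), (76, 78), (77, 79)]),
    ([32, 58, 41, 79], [(18, 23), (19, 39), (20, 59), (21, 61), (22, 62), (24, 63), (25, 60),
    (26, 57), (27, 64), (28, 65), (29, 66), (30, 56), (31, 67), (33, 55), (34, 68), (35, 54),
    (36, 69), (37, 70), (38, 71), (40, 52), (42, 72), (43, 51), (44, 53), (45, 73), (46, 50),
    (47, 74), (48, 75), (49, 76), (77, 78), (80, 81)]),
    ([39, 71, 56, 52], [(18, 21), (19, 33), (20, 36), (22, 49), (23, 61), (24, 62), (25, 60),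
    (26, 63), (27, 65), (28, 59), (29, 64), (30, 58), (31, 66), (32, 67), (34, 68), (35, 55),
    (37, 57), (38, 69), (40, 72), (41, 54), (42, 73), (43, 53), (44, 70), (45, 74), (46, 75),
    (47, 51), (48, 76), (50, 78), (77, 79), (80, 81), (82, 83)]),
    ([75, 64, 60, 84], [(18, 42), (19, 45), (20, 55), (21, 63), (22, 65), (23, 66), (24, 62),
    (25, 67), (26, 68), (27, 61), (28, 69), (29, 70), (30, 71), (31, 59), (32, 72), (33, 58),
    (34, 73), (35, 74), (36, 57), (37, 76), (38, 77), (39, 56), (40, 78), (41, 79), (43, 53),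
    (44, 54), (46, 80), (47, 81), (48, 52), (49, 82), (50, 83), (51, 85)]),
    ([53, 62, 70, 40], [(18, 22), (19, 34), (20, 42), (21, 49), (23, 65), (24, 66), (25, 64),
    (26, 68), (27, 69), (28, 63), (29, 71), (30, 67), (31, 61), (32, 72), (33, 73), (35, 60),
    (36, 75), (37, 76), (38, 74), (39, 59), (41, 58), (43, 77), (44, 57), (45, 78), (46, 56),
    (47, 79), (48, 55), (50, 80), (51, 54), (52, 81), (82, 83), (84, 85), (86, 87)]),
    ([54, 82, 63, 62], [(18, 36), (19, 43), (20, 70), (21, 42), (22, 60), (23, 68), (24, 69),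
    (25, 67), (26, 71), (27, 72), (28, 66), (29, 73), (30, 65), (31, 74), (32, 64), (33, 75),
    (34, 76), (35, 77), (37, 61), (38, 79), (39, 80), (40, 78), (41, 59), (44, 57), (45, 58),
    (46, 81), (47, 83), (48, 56), (49, 84), (50, 85), (51, 55), (52, 86), (53, 87), (88, 89)]),
    ([50, 59, 53, 77], [(18, 32), (19, 34), (20, 39), (21, 56), (22, 70), (23, 71), (24, 69),
    (25, 72), (26, 73), (27, 68), (28, 74), (29, 67), (30, 75), (31, 76), (33, 65), (35, 66),
    (36, 64), (37, 78), (38, 79), (40, 63), (41, 80), (42, 62), (43, 81), (44, 82), (45, 61),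
    (46, 83), (47, 84), (48, 60), (49, 85), (51, 86), (52, 58), (54, 57), (55, 87), (88, 89),
    (90, 91)]),
    ([92, 19, 78, 88], [(18, 80), (20, 68), (21, 74), (22, 77), (23, 85), (24, 91), (25, 79),
    (26, 76), (27, 67), (28, 50), (29, 81), (30, 90), (31, 72), (32, 75), (33, 84), (34, 66),
    (35, 87), (36, 93), (37, 59), (38, 86), (39, 89), (40, 73), (41, 82), (42, 70), (43, 63),
    (44, 48), (45, 69), (46, 55), (47, 83), (49, 56), (51, 58), (52, 64), (53, 65), (54, 71),
    (57, 62), (60, 61)]),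
    ([29, 80, 52, 83], [(18, 87), (19, 77), (20, 78), (21, 95), (22, 30), (23, 85), (24, 79),
    (25, 74), (26, 81), (27, 94), (28, 76), (31, 84), (32, 69), (33, 47), (34, 49), (35, 65),
    (36, 92), (37, 73), (38, 89), (39, 91), (40, 93), (41, 82), (42, 71), (43, 86), (44, 75),
    (45, 61), (46, 56), (48, 66), (50, 68), (51, 60), (53, 64), (54, 72), (55, 90), (57, 67),
    (58, 62), (59, 63), (70, 88)]),
    ([40, 81, 61, 41], [(18, 22), (19, 42), (20, 21), (23, 75), (24, 76), (25, 74), (26, 77),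
    (27, 78), (28, 73), (29, 79), (30, 80), (31, 82), (32, 72), (33, 83), (34, 84), (35, 71),
    (36, 86), (37, 70), (38, 85), (39, 87), (43, 66), (44, 67), (45, 69), (46, 88), (47, 65),
    (48, 89), (49, 68), (50, 90), (51, 64), (52, 91), (53, 92), (54, 93), (55, 94), (56, 63),
    (57, 95), (58, 62), (59, 96), (60, 97)]),
    ([53, 55, 78, 69], [(18, 35), (19, 36), (20, 49), (21, 57), (22, 79), (23, 77), (24, 80),
    (25, 81), (26, 76), (27, 82), (28, 75), (29, 83), (30, 84), (31, 74), (32, 85), (33, 86),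
    (34, 73), (37, 87), (38, 72), (39, 88), (40, 71), (41, 89), (42, 90), (43, 70), (44, 91),
    (45, 92), (46, 93), (47, 68), (48, 94), (50, 66), (51, 67), (52, 96), (54, 95), (56, 64),
    (58, 63), (59, 97), (60, 65), (61, 62), (98, 99)]),
    ([76, 80, 58, 79], [(18, 61), (19, 96), (20, 97), (21, 89), (22, 98), (23, 82), (24, 34),
    (25, 51), (26, 54), (27, 95), (28, 100), (29, 73), (30, 101), (31, 93), (32, 71), (33, 81),
    (35, 72), (36, 83), (37, 88), (38, 74), (39, 69), (40, 78), (41, 68), (42, 85), (43, 99),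
    (44, 77), (45, 84), (46, 67), (47, 94), (48, 75), (49, 57), (50, 86), (52, 92), (53, 63),
    (55, 56), (59, 90), (60, 70), (62, 64), (65, 87), (66, 91)]),
    ([76, 97, 39, 84], [(18, 21), (19, 57), (20, 94), (22, 98), (23, 99), (24, 92), (25, 87),
    (26, 58), (27, 101), (28, 78), (29, 68), (30, 83), (31, 86), (32, 75), (33, 72), (34, 77),
    (35, 96), (36, 79), (37, 71), (38, 91), (40, 102), (41, 69), (42, 82), (43, 66), (44, 60),
    (45, 80), (46, 73), (47, 85), (48, 95), (49, 90), (50, 88), (51, 93), (52, 89), (53, 81),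
    (54, 103), (55, 100), (56, 62), (59, 74), (61, 65), (63, 64), (67, 70)]),
    ([61, 83, 96, 64], [(18, 46), (19, 42), (20, 97), (21, 94), (22, 98), (23, 88), (24, 85),
    (25, 101), (26, 102), (27, 89), (28, 105), (29, 67), (30, 76), (31, 82), (32, 90), (33, 91),
    (34, 84), (35, 48), (36, 71), (37, 100), (38, 74), (39, 92), (40, 87), (41, 69), (43, 104),
    (44, 77), (45, 93), (47, 103), (49, 86), (50, 95), (51, 63), (52, 56), (53, 99), (54, 75),
    (55, 68), (57, 62), (58, 81), (59, 73), (60, 70), (65, 78), (66, 80), (72, 79)]),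
    ([63, 85, 50, 77], [(18, 32), (19, 44), (20, 57), (21, 64), (22, 86), (23, 87), (24, 88),
    (25, 84), (26, 89), (27, 90), (28, 83), (29, 91), (30, 92), (31, 82), (33, 81), (34, 94),
    (35, 95), (36, 80), (37, 96), (38, 93), (39, 79), (40, 97), (41, 78), (42, 99), (43, 100),
    (45, 76), (46, 98), (47, 102), (48, 75), (49, 101), (51, 73), (52, 103), (53, 104), (54,
    105), (55, 106), (56, 70), (58, 107), (59, 66), (60, 72), (61, 68), (62, 74), (65, 69), (67,
    71)]),
    ([49, 77, 62, 83], [(18, 65), (19, 97), (20, 57), (21, 96), (22, 99), (23, 87), (24, 25),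
    (26, 103), (27, 35), (28, 102), (29, 108), (30, 82), (31, 109), (32, 95), (33, 80), (34,
    101), (36, 84), (37, 106), (38, 93), (39, 76), (40, 71), (41, 78), (42, 100), (43, 104),
    (44, 81), (45, 107), (46, 90), (47, 94), (48, 85), (50, 105), (51, 63), (52, 86), (53, 91),
    (54, 70), (55, 68), (56, 66), (58, 60), (59, 75), (61, 67), (64, 92), (69, 79), (72, 74),
    (73, 88), (89, 98)]),
    ([71, 64, 66, 92], [(18, 96), (19, 97), (20, 100), (21, 50), (22, 99), (23, 41), (24, 104),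
    (25, 111), (26, 98), (27, 90), (28, 84), (29, 37), (30, 103), (31, 107), (32, 102), (33,
    106), (34, 89), (35, 87), (36, 56), (38, 105), (39, 101), (40, 110), (42, 95), (43, 108),
    (44, 75), (45, 80), (46, 72), (47, 94), (48, 79), (49, 77), (51, 93), (52, 61), (53, 62),
    (54, 78), (55, 109), (57, 85), (58, 88), (59, 86), (60, 69), (63, 68), (65, 91), (67, 81),
    (70, 82), (73, 74), (76, 83)]),
    ([52, 110, 47, 93], [(18, 34), (19, 102), (20, 97), (21, 26), (22, 96), (23, 100), (24,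
    106), (25, 95), (27, 66), (28, 88), (29, 85), (30, 99), (31, 111), (32, 107), (33, 77), (35,
    101), (36, 108), (37, 89), (38, 112), (39, 86), (40, 84), (41, 74), (42, 109), (43, 91),
    (44, 105), (45, 82), (46, 113), (48, 80), (49, 98), (50, 72), (51, 104), (53, 78), (54, 83),
    (55, 103), (56, 92), (57, 75), (58, 61), (59, 79), (60, 94), (62, 90), (63, 70), (64, 71),
    (65, 81), (67, 76), (68, 73), (69, 87)])]

def lab (t : ℕ) (c : List ℕ) (P : List (ℕ × ℕ)) : (Fin 17 ⊕ Fin 4) ⊕ (Fin t × Fin 2) → ℕ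
  | .inl (.inl i) => i.1 + 1
  | .inl (.inr j) => c.getD j.1 0
  | .inr (i, k) => if k = 0 then (P.getD i.1 (0, 0)).1 else (P.getD i.1 (0, 0)).2

def sums (t : ℕ) (c : List ℕ) (P : List (ℕ × ℕ)) :
    ((Fin 1 ⊕ Fin 17) ⊕ Fin 4) ⊕ (Fin t × Fin 3) → ℕ
  | .inl (.inl (.inl _)) => 153
  | .inl (.inl (.inr i)) => i.1 + 1
  | .inl (.inr j) => c.getD (j + 3).1 0 + c.getD j.1 0
  | .inr (i, k) => if k = 0 then (P.getD i.1 (0, 0)).1 else if k = 1 then
      (P.getD i.1 (0, 0)).1 + (P.getD i.1 (0, 0)).2 else (P.getD i.1 (0, 0)).2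

def listE (t : ℕ) : List ((Fin 17 ⊕ Fin 4) ⊕ (Fin t × Fin 2)) :=
  ((List.finRange 17).map Sum.inl ++ (List.finRange 4).map Sum.inr).map Sum.inl ++
    ((List.finRange t).flatMap (fun i => (List.finRange 2).map (fun k => (i, k)))).map Sum.inr

def listV (t : ℕ) : List (((Fin 1 ⊕ Fin 17) ⊕ Fin 4) ⊕ (Fin t × Fin 3)) :=
  (((List.finRange 1).map Sum.inl ++ (List.finRange 17).map Sum.inr).map Sum.inl ++
    (List.finRange 4).map Sum.inr).map Sum.inl ++
    ((List.finRange t).flatMap (fun i => (List.finRange 3).map (fun k => (i, k)))).map Sum.inr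

theorem mem_listE (t : ℕ) : ∀ i, i ∈ listE t := by
  rintro ((i | i) | ⟨i, k⟩)
  · simp [listE]
  · simp [listE]
  · simp only [listE, List.mem_append, List.mem_map, List.mem_flatMap]
    right
    exact ⟨(i, k), ⟨i, List.mem_finRange i, k, List.mem_finRange k, rfl⟩, rfl⟩

theorem mem_listV (t : ℕ) : ∀ i, i ∈ listV t := by
  rintro (((i | i) | i) | ⟨i, k⟩) <;> simp [listV]

def ok (t : ℕ) (c : List ℕ) (P : List (ℕ × ℕ)) : Bool :=
  nodupCheck ((listE t).map (lab t c P)) 0 &&
  (((listE t).map (lab t c P)).all (fun x => decide (1 ≤ x) && decide (x ≤ 21 + 2 * t)) &&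
  nodupCheck ((listV t).map (sums t c P)) 0)

theorem all_ok : ∀ t < 47, ok t (table.getD t ([], [])).1 (table.getD t ([], [])).2 = true := by
  decide +kernel

theorem sums_eq (t : ℕ) (c : List ℕ) (P : List (ℕ × ℕ))
    (v : ((Fin 1 ⊕ Fin 17) ⊕ Fin 4) ⊕ (Fin t × Fin 3)) :
    ∑ i, (if v ∈ (Sum.elim (fun i => Sym2.map Sum.inl
      (Sum.elim (fun i => Sym2.map Sum.inl s(Sum.inl 0, Sum.inr i))
        (fun j => Sym2.map Sum.inr s(j, j + 1)) i))
      (fun x => Sym2.map Sum.inr s((x.1, x.2.castSucc), (x.1, x.2.succ))) i :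
        Sym2 (((Fin 1 ⊕ Fin 17) ⊕ Fin 4) ⊕ (Fin t × Fin 3)))
      then lab t c P i else 0) = sums t c P v := by
  rw [Fintype.sum_sum_type, Fintype.sum_sum_type, Fintype.sum_prod_type]
  rcases v with ((v | v) | v) | ⟨i, k⟩
  · have hv : v = 0 := Subsingleton.elim _ _
    subst hv
    simp [lab, sums]
    rfl
  · simp [lab, sums]
  · simp only [Sum.elim_inl, Sum.elim_inr, Sym2.map_mk, Sym2.mem_iff, lab, sums]
    fin_cases v <;> simp [Fin.sum_univ_four] <;> omega
  · simp only [Sum.elim_inl, Sum.elim_inr, Sym2.map_mk, Sym2.mem_iff, lab, sums,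
      Fin.sum_univ_two]
    fin_cases k <;> simp [Finset.sum_add_distrib]

theorem antimagic_union (t : ℕ) (ht : t ≤ 46) :
    Antimagic ((completeBipartiteGraph (Fin 1) (Fin 17) ⊕g cycleGraph 4) ⊕g copiesP3 t) := by
  have hok := all_ok t (by omega)
  generalize (table.getD t ([], [])).1 = c at hok
  generalize (table.getD t ([], [])).2 = P at hok
  simp only [ok, Bool.and_eq_true, List.all_eq_true, decide_eq_true_eq] at hok
  obtain ⟨h1, h2, h3⟩ := hok
  refine antimagic_of_enum (((enum_star 17).sum enum_cycle4).sum (enum_P3 t)) (lab t c P)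
    (inj_of_check _ (mem_listE t) _ h1) ?_ (sums t c P) (sums_eq t c P)
    (inj_of_check _ (mem_listV t) _ h3)
  intro i
  have := h2 _ (List.mem_map_of_mem (mem_listE t i))
  simp only [Fintype.card_sum, Fintype.card_prod, Fintype.card_fin]
  omega

theorem antimagic_star : Antimagic (completeBipartiteGraph (Fin 1) (Fin 17)) := by
  refine antimagic_of_enum (enum_star 17) (fun i => i.1 + 1) ?_ ?_
    (Sum.elim (fun _ => 153) (fun i => i.1 + 1)) ?_ ?_
  · intro i j h
    simp only [Nat.add_right_cancel_iff] at h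
    exact Fin.ext h
  · intro i
    simp only [Fintype.card_fin]
    omega
  · rintro (v | v)
    · have hv : v = 0 := Subsingleton.elim _ _
      subst hv
      simp
      rfl
    · simp
  · rintro (v | v) (w | w) h
    · rw [Subsingleton.elim v w]
    · simp only [Sum.elim_inl, Sum.elim_inr] at h
      omega
    · simp only [Sum.elim_inl, Sum.elim_inr] at h
      omega
    · simp only [Sum.elim_inr, Nat.add_right_cancel_iff] at h
      rw [Fin.ext h]

theorem antimagic_cycle : Antimagic (cycleGraph 4) := by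
  refine antimagic_of_enum enum_cycle4 (![1, 2, 4, 3]) (by decide) (by decide)
    (![4, 3, 6, 7]) (by decide) (by decide)

theorem star_no_iso (v : (Fin 1 ⊕ Fin 17) ⊕ (Fin 36 × Fin 3)) :
    ∃ w, (completeBipartiteGraph (Fin 1) (Fin 17) ⊕g copiesP3 36).Adj v w := by
  rcases v with (v | v) | ⟨i, k⟩
  · exact ⟨Sum.inl (Sum.inr 0), by simp⟩
  · exact ⟨Sum.inl (Sum.inl 0), by simp⟩
  · exact p3_no_iso _ i k

theorem cycle_no_iso (v : Fin 4 ⊕ (Fin 11 × Fin 3)) :
    ∃ w, (cycleGraph 4 ⊕g copiesP3 11).Adj v w := by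
  rcases v with v | ⟨i, k⟩
  · refine ⟨Sum.inl (v + 1), ?_⟩
    show (cycleGraph 4).Adj v (v + 1)
    revert v
    decide
  · exact p3_no_iso _ i k

theorem tau_star_le : tau (completeBipartiteGraph (Fin 1) (Fin 17)) ≤ ((35 : ℕ∞) : WithBot ℕ∞) := by
  apply tau_le (s := 35)
  intro h
  have h1 := count_two _ star_no_iso h (Sum.inl (Sum.inl 0)) 17 (by
    rw [neighborSet_sum_inl, Set.ncard_image_of_injective _ Sum.inl_injective]
    have : (completeBipartiteGraph (Fin 1) (Fin 17)).neighborSet (Sum.inl 0) =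
        Sum.inr '' Set.univ := by
      ext (v | v) <;> simp
    rw [this, Set.ncard_image_of_injective _ Sum.inr_injective, Set.ncard_univ]
    simp)
  rw [((enum_star 17).sum (enum_P3 36)).ncard] at h1
  simp at h1

theorem tau_cycle_le : tau (cycleGraph 4) ≤ ((10 : ℕ∞) : WithBot ℕ∞) := by
  apply tau_le (s := 10)
  intro h
  have h1 := count_one _ cycle_no_iso h
  rw [(enum_cycle4.sum (enum_P3 11)).ncard] at h1
  simp at h1

theorem antimagic_star_cycle :
    Antimagic (completeBipartiteGraph (Fin 1) (Fin 17) ⊕g cycleGraph 4) := by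
  refine antimagic_of_enum ((enum_star 17).sum enum_cycle4)
    (Sum.elim (fun i => i.1 + 1) ![18, 19, 21, 20]) (by decide +kernel) (by decide +kernel)
    (Sum.elim (Sum.elim (fun _ => 153) (fun i => i.1 + 1)) ![38, 37, 40, 41])
    (by decide +kernel) (by decide +kernel)

/-- The parameter `tau` is not subadditive: for the star `K_{1,17}` and the cycle `C_4`, both
antimagic, as is their disjoint union, `tau` of the disjoint union is larger than the sum of the
two values of `tau`. -/
theorem result :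
    Antimagic (completeBipartiteGraph (Fin 1) (Fin 17)) ∧
    Antimagic (cycleGraph 4) ∧
    Antimagic (completeBipartiteGraph (Fin 1) (Fin 17) ⊕g cycleGraph 4) ∧
    tau (completeBipartiteGraph (Fin 1) (Fin 17)) + tau (cycleGraph 4) <
      tau (completeBipartiteGraph (Fin 1) (Fin 17) ⊕g cycleGraph 4) := by
  refine ⟨antimagic_star, antimagic_cycle, antimagic_star_cycle, ?_⟩
  have h1 := le_tau (s := 46) (fun t ht => antimagic_union t ht)
  refine lt_of_le_of_lt (add_le_add tau_star_le tau_cycle_le) (lt_of_lt_of_le ?_ h1)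
  rw [← WithBot.coe_add, WithBot.coe_lt_coe]
  exact_mod_cast (by norm_num : (35 + 10 : ℕ) < 46)

end Pool.Agent.Results.MP_567833_co.NotSubadditive
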